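import Mathlib
import Pool.Agent.H200Z.Lang
import Pool.Agent.Q200.ZZ.Z1
import Pool.Agent.Q222.HZ.Z2
import Pool.Agent.Q222.HZ.Z34
import Pool.Agent.Q222.HZ.Z5
import Pool.Agent.Q222.HZ.Z6
import Pool.Agent.Q222.HZ.L7
import Pool.Agent.Q222.HZ.L9

set_option autoImplicit false

/-!
# There is no structure strictly between `(ℤ; +)` and `(ℤ; +, C_α)`

Let `α` be irrational, and let `M` be a structure with universe `ℤ`, in any first-order language. If every
set of tuples definable in `(ℤ; +)` is definable in `M` and every set definable in `M` is definable in
`(ℤ; +, C_α)` (always first-order with parameters), then `M` has the same definable sets as `(ℤ; +)` or the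
same definable sets as `(ℤ; +, C_α)`. This answers Q1: there is no intermediate structure, for no `α`.

`(ℤ; +)` is the structure `Pool.Agent.H200Z.gStr` of the language `Pool.Agent.H200Z.Lg` with one binary
function symbol; `(ℤ; +, C_α)` is the structure `Pool.Agent.H200Z.cStr α` of the language
`Pool.Agent.H200Z.Lc` with one binary function symbol and one ternary relation symbol, interpreted by the
cyclic order `Pool.Agent.H200Z.Cyc α`. `Pool.Agent.H200Z.Dfn L S n s`: the set `s` of `n`-tuples of integers
is definable with parameters in the structure `S` (Mathlib's `Set.Definable` with all integers as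
parameters).

Idea of the proof. If all definable sets of integers of `M` are eventually periodic then `M` has no more
definable sets than `(ℤ; +)`. Otherwise quantifier elimination for `(ℤ; +, C_α)` gives a set `Y` definable in
`M`, infinite and co-infinite, for which membership depends (up to finitely many exceptions) on the position
of the fractional part of `y α` with respect to finitely many numbers. Intersections of translates of such
sets with as few jumps as possible give, for some `m ≥ 1`, the set of all `y` such that `y (m α)` lies in a
short arc of the circle, from this one gets the cyclic order `C_{m α}`, and finally `C_α`.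
-/

namespace Pool.Agent.Results.MP_340ce7_lc.NoIntermediate

open Pool.Agent.H200Z Pool.Agent.Q222.HZ Pool.Agent.Q200.ZZ

universe u v

/-- **Main result.** -/
theorem result (α : ℝ) (hα : Irrational α) (L : FirstOrder.Language.{u, v}) (S : L.Structure ℤ)
    (h1 : ∀ (n : ℕ) (s : Set (Fin n → ℤ)), Dfn Lg gStr n s → Dfn L S n s)
    (h2 : ∀ (n : ℕ) (s : Set (Fin n → ℤ)), Dfn L S n s → Dfn Lc (cStr α) n s) :
    (∀ (n : ℕ) (s : Set (Fin n → ℤ)), Dfn L S n s ↔ Dfn Lg gStr n s) ∨
      (∀ (n : ℕ) (s : Set (Fin n → ℤ)), Dfn L S n s ↔ Dfn Lc (cStr α) n s) := by
  rcases assembly z1 z2 z3 z4 z5 z6 z7.{u, v} z7.{0, 0} z8 z9 z10.1 z10.2 hα L S h1 h2 with h | h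
  · exact Or.inl fun n s => ⟨h n s, h1 n s⟩
  · exact Or.inr fun n s => ⟨h2 n s, h n s⟩

end Pool.Agent.Results.MP_340ce7_lc.NoIntermediate
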